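import Pool.Agent.WAQ.StmtsM

set_option autoImplicit false

/-!
# WAQ, row SWE: a matrix after which the swap is near the corner
-/

namespace Pool.Agent.WAQ.H60

open Pool.Agent.WAQ
open Classical

variable [Par]

theorem onU_sw {F : Type} [Field F] {z : F × F × F} (h : OnU z) : OnU (swf z) := by
  obtain ⟨x, t, y⟩ := z
  obtain ⟨h1, h2⟩ := h
  refine ⟨?_, h2⟩
  show y ^ 2 = cub t * cub x
  have h3 : y ^ 2 = cub x * cub t := h1
  rw [h3, mul_comm]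

theorem mz_mul_sw {F : Type} [Field F] {z : F × F × F} (h : OnU z) : mz z * mz (swf z) = 1 := by
  obtain ⟨x, t, y⟩ := z
  obtain ⟨h1, h2⟩ := h
  have h3 : y ^ 2 = cub x * cub t := h1
  have h4 : y ≠ 0 := h2
  show y / (x * ((t - ea F) * (t - eb F))) * (y / (t * ((x - ea F) * (x - eb F)))) = 1
  have h5 : cub x * cub t ≠ 0 := by
    rw [← h3]
    exact pow_ne_zero 2 h4
  have h6 : x * ((t - ea F) * (t - eb F)) * (t * ((x - ea F) * (x - eb F))) = cub x * cub t := by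
    unfold cub
    ring
  rw [div_mul_div_comm, h6, ← h3, ← pow_two]
  exact div_self (pow_ne_zero 2 h4)

/-- **SWE** -/
theorem swe (mee : MeeStmt) : SweStmt := by
  intro F _ ϖ hL ρ hρ
  have hlt : ‖am F ϖ‖ < 1 := (hL.lt_one ϖ).2 (dvd_refl ϖ)
  have hpos : 0 < ‖am F ϖ‖ := hL.uni
  have hρ' : 0 < 1 / ρ + 1 := by positivity
  obtain ⟨n, hn⟩ := exists_pow_lt_of_lt_one (inv_pos.2 hρ') hlt
  have hn' : 1 / ρ + 1 < (‖am F ϖ‖ ^ n)⁻¹ := by
    rw [lt_inv_comm₀ hρ' (pow_pos hpos n)]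
    exact hn
  have hdet : ϖ ^ n * 0 - (-1) * 1 = (1 : ℤ) := by ring
  obtain ⟨r, hr, hz⟩ := mee F ϖ hL (ϖ ^ n) (-1) 1 0 (min ρ 1) hdet
    (pow_ne_zero n hL.prime.ne_zero) one_ne_zero (lt_min hρ one_pos)
  refine ⟨ϖ ^ n, -1, 1, 0, r, hdet, hr, ?_⟩
  intro z hzE
  obtain ⟨z', hst, hU, hx, ht, hm⟩ := hz z hzE
  refine ⟨z', hst, onU_sw hU, ?_, ?_, ?_⟩
  · exact lt_of_le_of_lt (one_div_le_one_div_of_le (lt_min hρ one_pos) (min_le_left ρ 1)) ht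
  · exact lt_of_le_of_lt (one_div_le_one_div_of_le (lt_min hρ one_pos) (min_le_left ρ 1)) hx
  · rw [sub_zero]
    have h1 := mz_mul_sw hU
    have h2 : ‖am F 1 / am F (ϖ ^ n)‖ = (‖am F ϖ‖ ^ n)⁻¹ := by
      rw [map_one, map_pow, norm_div, norm_one, norm_pow, one_div]
    have h3 : ‖mz z' - am F 1 / am F (ϖ ^ n)‖ < 1 := lt_of_lt_of_le hm (min_le_right ρ 1)
    have h4 : ‖am F 1 / am F (ϖ ^ n)‖ - ‖mz z'‖ ≤ ‖mz z' - am F 1 / am F (ϖ ^ n)‖ := by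
      rw [norm_sub_rev]
      exact norm_sub_norm_le _ _
    have h5 : 1 / ρ < ‖mz z'‖ := by
      rw [h2] at h4
      linarith
    have h6 : ‖mz z'‖ * ‖mz (swf z')‖ = 1 := by
      rw [← norm_mul, h1, norm_one]
    have h7 : 0 < ‖mz z'‖ := lt_trans (by positivity) h5
    have h8 : ‖mz (swf z')‖ = 1 / ‖mz z'‖ := by
      rw [eq_div_iff h7.ne', mul_comm]
      exact h6
    rw [h8, one_div_lt h7 hρ]
    exact h5

end Pool.Agent.WAQ.H60
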